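import Pool.Agent.Helper65.KPZ.St

/-!
# Project KP, chapter Z, module ZIN: independence of homogeneous components
-/

set_option autoImplicit false

namespace Pool.Agent.Helper57.KPZ

open Pool.Agent.Helper52.KP Pool.Agent.Helper67.NO Pool.Agent.Helper65.KPZ

universe u

private theorem coeff_sum (s : Finset ℕ) (a : ℕ → ℂ)
    (h : ∀ c : ℂ, c ≠ 0 → ∑ k ∈ s, a k * c ^ k = 0) : ∀ k ∈ s, a k = 0 := by
  intro k hk
  have hP : Polynomial.X * (∑ j ∈ s, Polynomial.monomial j (a j)) = (0 : Polynomial ℂ) := by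
    apply Polynomial.funext
    intro c
    rw [Polynomial.eval_mul, Polynomial.eval_X, Polynomial.eval_zero]
    by_cases hc : c = 0
    · rw [hc, zero_mul]
    · rw [Polynomial.eval_finsetSum]
      have e : ∑ j ∈ s, Polynomial.eval c (Polynomial.monomial j (a j)) =
          ∑ j ∈ s, a j * c ^ j :=
        Finset.sum_congr rfl fun j _ => Polynomial.eval_monomial
      rw [e, h c hc, mul_zero]
  have hP2 : (∑ j ∈ s, Polynomial.monomial j (a j)) = (0 : Polynomial ℂ) := by
    rcases mul_eq_zero.1 hP with h1 | h1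
    · exact absurd h1 Polynomial.X_ne_zero
    · exact h1
  have h2 := congrArg (fun P : Polynomial ℂ => P.coeff k) hP2
  simp only [Polynomial.finsetSum_coeff, Polynomial.coeff_monomial, Polynomial.coeff_zero] at h2
  rw [Finset.sum_ite_eq' s k a, if_pos hk] at h2
  exact h2

theorem hZIN : StZIN.{u} := by
  intro g _ _ _ x₀ hcone C hC
  constructor
  · intro s f hf hsum k hk
    apply MvPolynomial.funext
    intro z
    rw [map_zero]
    refine coeff_sum s (fun k => ev (f k) z) ?_ k hk
    intro c _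
    have h1 : ∑ j ∈ s, ev (f j) z * c ^ j = ∑ j ∈ s, ev (f j) (scl C.w c z) := by
      refine Finset.sum_congr rfl fun j hj => ?_
      rw [hC.hom j (f j) (hf j hj) c z, mul_comm]
    have h2 : ∑ j ∈ s, ev (f j) (scl C.w c z) = ev (∑ j ∈ s, f j) (scl C.w c z) :=
      (map_sum (MvPolynomial.eval (scl C.w c z)) f s).symm
    show ∑ j ∈ s, ev (f j) z * c ^ j = 0
    rw [h1, h2, hsum]
    exact map_zero _
  · intro s f hf hsum k hk
    funext x
    show f k x = 0
    refine coeff_sum s (fun k => f k x) ?_ k hk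
    intro c hc
    have h1 : ∑ j ∈ s, f j x * c ^ j =
        ∑ j ∈ s, f j (⟨c • x.1, hcone x.1 x.2 c hc⟩ : OO x₀) := by
      refine Finset.sum_congr rfl fun j hj => ?_
      rw [(hf j hj).2 x (⟨c • x.1, hcone x.1 x.2 c hc⟩ : OO x₀) c hc rfl, mul_comm]
    have h2 := congrFun hsum (⟨c • x.1, hcone x.1 x.2 c hc⟩ : OO x₀)
    rw [Finset.sum_apply] at h2
    show ∑ j ∈ s, f j x * c ^ j = 0
    rw [h1, h2]
    rfl

end Pool.Agent.Helper57.KPZ
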